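import Pool.Agent.NH36.Zt.Bd
import Pool.Agent.Z125.UN.Sym

/-!
# Trilinear hypersurfaces over the integers decide the properties with good closure properties
-/

set_option autoImplicit false

open CategoryTheory CategoryTheory.Limits AlgebraicGeometry MvPolynomial Pool.Agent.Y116.UV
  Pool.Agent.Q282.UK Pool.Agent.Q282.UZ Pool.Agent.Z125.UN

namespace Pool.Agent.NH36.Zt

lemma smooth_aff_int {R A : Type} [CommRing R] [CommRing A] [Algebra R A] (h : Algebra.Smooth R A) :
    Smooth (aff R A).hom := by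
  change Smooth (Spec.map (CommRingCat.ofHom (algebraMap R A)))
  rw [HasRingHomProperty.Spec_iff (P := @Smooth)]
  exact RingHom.smooth_algebraMap.mpr h

section one

/-- the ring `ℤ[x, y, z] / (x y z - 1)` -/
abbrev One3 : Type := Trip ℤ ({(0, 0, 0)} : Finset (Fin 1 × Fin 1 × Fin 1))

/-- the variables -/
noncomputable def ov (v : Fin 1 ⊕ (Fin 1 ⊕ Fin 1)) : One3 := Ideal.Quotient.mk _ (X v)

lemma ov_mul : ov (Sum.inl 0) * ov (Sum.inr (Sum.inl 0)) * ov (Sum.inr (Sum.inr 0)) = 1 := by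
  have h0 : (X (Sum.inl 0) * X (Sum.inr (Sum.inl 0)) * X (Sum.inr (Sum.inr 0)) -
      (1 : MvPolynomial (Fin 1 ⊕ (Fin 1 ⊕ Fin 1)) ℤ)) ∈
      Ideal.span {∑ h ∈ ({(0, 0, 0)} : Finset (Fin 1 × Fin 1 × Fin 1)),
      X (Sum.inl h.1) * X (Sum.inr (Sum.inl h.2.1)) * X (Sum.inr (Sum.inr h.2.2)) -
      (1 : MvPolynomial (Fin 1 ⊕ (Fin 1 ⊕ Fin 1)) ℤ)} := Ideal.subset_span (by
        rw [Set.mem_singleton_iff, Finset.sum_singleton])
  have h := Ideal.Quotient.eq_zero_iff_mem.mpr h0
  rw [map_sub, map_one, sub_eq_zero, map_mul, map_mul] at h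
  exact h

/-- `x` as a unit -/
noncomputable def ux : One3ˣ where
  val := ov (Sum.inl 0)
  inv := ov (Sum.inr (Sum.inl 0)) * ov (Sum.inr (Sum.inr 0))
  val_inv := by rw [← mul_assoc]; exact ov_mul
  inv_val := by rw [mul_comm, ← mul_assoc]; exact ov_mul

/-- `y` as a unit -/
noncomputable def uy : One3ˣ where
  val := ov (Sum.inr (Sum.inl 0))
  inv := ov (Sum.inl 0) * ov (Sum.inr (Sum.inr 0))
  val_inv := by
    have := ov_mul
    linear_combination this
  inv_val := by
    have := ov_mul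
    linear_combination this

/-- the inverse of the product of the coordinates of the torus -/
noncomputable def uw : Tor ℤ := LaurentPolynomial.C (LaurentPolynomial.T (-1)) * LaurentPolynomial.T (-1)

lemma uw_mul : ts ℤ * tt ℤ * uw = 1 := by
  have h1 : (LaurentPolynomial.T 1 : LaurentPolynomial ℤ) * LaurentPolynomial.T (-1) = 1 := by
    rw [← LaurentPolynomial.T_add]
    simp
  have h2 : (LaurentPolynomial.T 1 : Tor ℤ) * LaurentPolynomial.T (-1) = 1 := by
    rw [← LaurentPolynomial.T_add]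
    simp
  have h3 : ts ℤ * LaurentPolynomial.C (LaurentPolynomial.T (-1)) = 1 := by
    rw [ts, ← map_mul, h1, map_one]
  rw [uw, tt]
  linear_combination (LaurentPolynomial.T 1 * LaurentPolynomial.T (-1) : Tor ℤ) * h3 + h2

/-- the values of the variables -/
noncomputable def ovl : Fin 1 ⊕ (Fin 1 ⊕ Fin 1) → Tor ℤ :=
  Sum.elim (fun _ => ts ℤ) (Sum.elim (fun _ => tt ℤ) fun _ => uw)

/-- to the torus -/
noncomputable def oF : One3 →ₐ[ℤ] Tor ℤ :=
  Ideal.Quotient.liftₐ _ (aeval ovl) (by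
    intro a ha
    have h : Ideal.span {∑ h ∈ ({(0, 0, 0)} : Finset (Fin 1 × Fin 1 × Fin 1)),
      X (Sum.inl h.1) * X (Sum.inr (Sum.inl h.2.1)) * X (Sum.inr (Sum.inr h.2.2)) -
      (1 : MvPolynomial (Fin 1 ⊕ (Fin 1 ⊕ Fin 1)) ℤ)} ≤
        RingHom.ker (aeval ovl : MvPolynomial (Fin 1 ⊕ (Fin 1 ⊕ Fin 1)) ℤ →ₐ[ℤ] Tor ℤ) := by
      rw [Ideal.span_le, Set.singleton_subset_iff]
      change aeval ovl _ = 0
      rw [Finset.sum_singleton, map_sub, map_one, map_mul, map_mul, aeval_X, aeval_X, aeval_X,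
        sub_eq_zero]
      exact uw_mul
    exact h ha)

lemma oF_ov (v : Fin 1 ⊕ (Fin 1 ⊕ Fin 1)) : oF (ov v) = ovl v := by
  change aeval ovl (X v) = ovl v
  rw [aeval_X]

/-- from the torus -/
noncomputable def oG : Tor ℤ →+* One3 :=
  LaurentPolynomial.eval₂ (LaurentPolynomial.eval₂ (Int.castRingHom One3) ux) uy

lemma oG_ts : oG (ts ℤ) = ov (Sum.inl 0) := by
  rw [oG, ts, LaurentPolynomial.eval₂_C, LaurentPolynomial.eval₂_T, zpow_one]
  rfl

lemma oG_tt : oG (tt ℤ) = ov (Sum.inr (Sum.inl 0)) := by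
  rw [oG, tt, LaurentPolynomial.eval₂_T, zpow_one]
  rfl

lemma oG_uw : oG uw = ov (Sum.inr (Sum.inr 0)) := by
  have h1 := congrArg oG uw_mul
  rw [map_mul, map_mul, oG_ts, oG_tt, map_one] at h1
  have h2 := ov_mul
  linear_combination (ov (Sum.inr (Sum.inr 0))) * h1 - oG uw * h2

/-- `x y z = 1` is the torus of dimension two. -/
noncomputable def oneTorus : One3 ≃ₐ[ℤ] LaurentPolynomial (LaurentPolynomial ℤ) :=
  AlgEquiv.ofRingEquiv (f := RingEquiv.ofRingHom oF.toRingHom oG
    (by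
      apply tor_hom_ext
      · intro a
        change oF (oG (ia ℤ a)) = ia ℤ a
        have h1 : ∀ a : ℤ, ia ℤ a = (a : Tor ℤ) := fun a => by
          have : (ia ℤ) = Int.castRingHom (Tor ℤ) := RingHom.ext_int _ _
          rw [this]
          rfl
        rw [h1, map_intCast, map_intCast]
      · change oF (oG (ts ℤ)) = ts ℤ
        rw [oG_ts, oF_ov]
        rfl
      · change oF (oG (tt ℤ)) = tt ℤ
        rw [oG_tt, oF_ov]
        rfl)
    (by
      apply Ideal.Quotient.ringHom_ext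
      apply MvPolynomial.ringHom_ext
      · intro r
        have h : (((oG.comp oF.toRingHom).comp (Ideal.Quotient.mk _)).comp
            (C : ℤ →+* MvPolynomial (Fin 1 ⊕ (Fin 1 ⊕ Fin 1)) ℤ)) =
          (((RingHom.id One3).comp (Ideal.Quotient.mk _)).comp
            (C : ℤ →+* MvPolynomial (Fin 1 ⊕ (Fin 1 ⊕ Fin 1)) ℤ)) := RingHom.ext_int _ _
        exact congrArg (fun g : ℤ →+* One3 => g r) h
      · intro v
        change oG (oF (ov v)) = ov v
        rw [oF_ov]
        rcases v with v | v | v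
        · rw [Subsingleton.elim v 0]
          exact oG_ts
        · rw [Subsingleton.elim v 0]
          exact oG_tt
        · rw [Subsingleton.elim v 0]
          exact oG_uw)) (fun r => by
      rw [eq_intCast (algebraMap ℤ One3) r, map_intCast]
      exact (eq_intCast (algebraMap ℤ (LaurentPolynomial (LaurentPolynomial ℤ))) r).symm)

end one

/-- From `x y z = 1` to the point. -/
lemma p_point {P : Sch ℤ → Prop} (hP : Clo False P) (h : P (aff ℤ One3)) : P (aff ℤ ℤ) := by
  have h7 := ft_laurent (R := ℤ) ℤ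
  exact hP.torus ℤ (hP.torus _ (clo_alg hP oneTorus h))

section three

/-- The scheme `∑_{(i, j, k) ∈ H} x_i y_j z_k = 1` for all sets `H` such that every variable `x_i` occurs
in at most three terms. -/
def ForSparse (P : Sch ℤ → Prop) : Prop :=
  ∀ (a b c : ℕ) (H : Finset (Fin a × Fin b × Fin c)),
    (∀ i, (H.filter fun h => h.1 = i).card ≤ 3) → P (tripS ℤ H)

lemma few_bil {b c : ℕ} (E : Finset (Fin b × Fin c)) :
    bil (Fin b) (Fin c) (fun j k => if (j, k) ∈ E then (1 : ℤ) else 0) = few ℤ E := by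
  classical
  rw [bil_apply, few]
  have h1 : ∀ j k, (C (if (j, k) ∈ E then (1 : ℤ) else 0) * X (Sum.inl j) * X (Sum.inr k) :
      MvPolynomial (Fin b ⊕ Fin c) ℤ) =
      if (j, k) ∈ E then X (Sum.inl j) * X (Sum.inr k) else 0 := by
    intro j k
    split_ifs
    · rw [map_one, one_mul]
    · rw [map_zero, zero_mul, zero_mul]
  have h2 : ∑ h : Fin b × Fin c, (if h ∈ E then X (Sum.inl h.1) * X (Sum.inr h.2) else
        (0 : MvPolynomial (Fin b ⊕ Fin c) ℤ)) =
      ∑ h ∈ E, X (Sum.inl h.1) * X (Sum.inr h.2) := by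
    rw [← Finset.sum_filter, Finset.filter_univ_mem]
  rw [← h2, Fintype.sum_prod_type]
  apply Finset.sum_congr rfl
  intro j _
  apply Finset.sum_congr rfl
  intro k _
  exact h1 j k

lemma sparse_jou {P : Sch ℤ → Prop} (hP : Clo False P) (hH : ForSparse P) {a b c : ℕ}
    (E : Fin a → Finset (Fin b × Fin c)) (hE : ∀ i, (E i).card ≤ 3) :
    P (aff ℤ (Jou fun i => few ℤ (E i))) := by
  classical
  let H : Finset (Fin a × Fin b × Fin c) := Finset.univ.filter fun h => h.2 ∈ E h.1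
  have hm : ∀ i j k, (i, j, k) ∈ H ↔ (j, k) ∈ E i := by
    intro i j k
    rw [Finset.mem_filter]
    simp
  have h1 : ∀ i, (H.filter fun h => h.1 = i).card ≤ 3 := by
    intro i
    refine le_trans ?_ (hE i)
    refine Finset.card_le_card_of_injOn Prod.snd ?_ ?_
    · rintro ⟨i', j, k⟩ h
      rw [Finset.mem_coe, Finset.mem_filter, hm] at h
      obtain ⟨h, h'⟩ := h
      change i' = i at h'
      rw [h'] at h
      exact h
    · rintro ⟨i', j, k⟩ h ⟨i'', j', k'⟩ h' he
      rw [Finset.mem_coe, Finset.mem_filter] at h h'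
      have e1 : i' = i := h.2
      have e2 : i'' = i := h'.2
      rw [e1, e2, show (j, k) = (j', k') from he]
  have h2 := hH a b c H h1
  have e := hypEquiv (R := ℤ) (β := Fin b) (γ := Fin c)
    fun (i : Fin a) j k => if (i, j, k) ∈ H then (1 : ℤ) else 0
  have h3 : (fun i => bil (Fin b) (Fin c) (fun j k => if (i, j, k) ∈ H then (1 : ℤ) else 0)) =
      fun i => few ℤ (E i) := by
    funext i
    rw [← few_bil]
    simp only [hm]
  rw [h3] at e
  refine clo_alg hP e ?_
  have h4 : Hyp (fun i j k => if (i, j, k) ∈ H then (1 : ℤ) else 0) = Trip ℤ H := by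
    rw [Hyp, tri_ind]
  have h5 := hP
  refine clo_alg hP (Ideal.quotientEquivAlgOfEq ℤ ?_) h2
  rw [tri_ind]

/-- From the sparse hypersurfaces to all schemes. -/
theorem of_sparse {P : Sch ℤ → Prop} (hP : Bnd False P) (hH : ForSparse P) (X : Sch ℤ)
    (hX : FT False X) : P X := by
  have hC : Clo False P := ⟨hP.iso, hP.total, hP.opened, hP.torus⟩
  refine (three_iff short_int hC).mpr ?_ X hX
  intro a b c E hE
  exact of_jou hP.toUni (fun l => few ℤ (E l))
    (iso_alg hP.toUni (renameEquiv ℤ (Fintype.equivFin (Fin a ⊕ Fin b)).symm) (hP.space _))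
    (sparse_jou hC hH E hE)

end three

section graded

/-- All closed subschemes of the affine space of dimension `N` over `ℤ`. -/
def ForClosed (N : ℕ) (P : Sch ℤ → Prop) : Prop :=
  ∀ I : Ideal (MvPolynomial (Fin N) ℤ), P (aff ℤ (MvPolynomial (Fin N) ℤ ⧸ I))

/-- All hypersurfaces `T(x, y, z) = 1` over `ℤ` with at most `N` variables in one of the three blocks. -/
def ForNarrow (N : ℕ) (P : Sch ℤ → Prop) : Prop :=
  ∀ (a b c : ℕ) (T : Fin a → Fin b → Fin c → ℤ), (a ≤ N ∨ b ≤ N ∨ c ≤ N) → P (hypS T)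

theorem closed_iff_narrow {P : Sch ℤ → Prop} (hP : Bnd False P) (N : ℕ) :
    ForClosed N P ↔ ForNarrow (N + 1) P := by
  constructor
  · intro hA a b c T hm
    exact of_block hP (fun a b c' hc T => to_tri hP hA a b c' hc T) T hm
  · intro hH
    refine (graded hP N).mpr fun a b T => ?_
    exact hH a b (N + 1) T (Or.inr (Or.inr le_rfl))

/-- The point is a closed subscheme. -/
lemma point_closed {P : Sch ℤ → Prop} (hP : Clo False P) {N : ℕ} (h : ForClosed N P) :
    P (aff ℤ ℤ) := by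
  let φ : MvPolynomial (Fin N) ℤ →ₐ[ℤ] ℤ := aeval fun _ => 0
  have hφ : Function.Surjective φ := fun r => ⟨C r, by
    change aeval _ (C r) = r
    rw [aeval_C]
    rfl⟩
  exact clo_alg hP (Ideal.quotientKerAlgEquivOfSurjective (f := φ) hφ) (h _)

/-- The hypersurface `x y z = 1`. -/
lemma point_hyp {P : Sch ℤ → Prop} (hP : Clo False P)
    (h : P (hypS fun (_ : Fin 1) (_ : Fin 1) (_ : Fin 1) => (1 : ℤ))) : P (aff ℤ ℤ) := by
  refine p_point hP ?_
  refine clo_alg hP (Ideal.quotientEquivAlgOfEq ℤ ?_) h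
  have h1 : tri (fun (_ : Fin 1) (_ : Fin 1) (_ : Fin 1) => (1 : ℤ)) =
      ∑ h ∈ ({(0, 0, 0)} : Finset (Fin 1 × Fin 1 × Fin 1)),
      X (Sum.inl h.1) * X (Sum.inr (Sum.inl h.2.1)) * X (Sum.inr (Sum.inr h.2.2)) := by
    rw [← tri_ind]
    congr 1
    funext i j k
    rw [Subsingleton.elim i 0, Subsingleton.elim j 0, Subsingleton.elim k 0]
    simp
  rw [h1]

lemma point_sparse {P : Sch ℤ → Prop} (hP : Clo False P) (h : ForSparse P) : P (aff ℤ ℤ) := by
  refine p_point hP (h 1 1 1 {(0, 0, 0)} fun i => ?_)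
  refine (Finset.card_filter_le _ _).trans ?_
  simp

end graded

end Pool.Agent.NH36.Zt
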