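import Pool.Agent.Q282.UZ.Ord
import Pool.Agent.Z125.UN.Grad
import Pool.Agent.Y116.UV.Graph

/-!
# The order formula for zeta functions: closed subschemes and affine bundles
-/

set_option autoImplicit false

open CategoryTheory CategoryTheory.Limits AlgebraicGeometry MvPolynomial Pool.Agent.Y116.UV
  Pool.Agent.Q193.LT Pool.Agent.Q193.Zeta Pool.Agent.Q282.UK Pool.Agent.Q282.UZ Pool.Agent.Z125.UN
  Filter Topology

universe w

namespace Pool.Agent.NH36.Zt

/-- Families `A m k X` of rational vector spaces (`m, k ∈ ℤ`, `X` of finite type over `ℤ`; for example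
`CH_m(X, k) ⊗ ℚ`) with the properties `IsChow` and with the homotopy invariance for affine bundles:
let `U` be the open subscheme of `Spec B` where the elements `f 1, …, f n` of `B` are not all zero,
and let `Jou f` be the ring `B[w 1, …, w n] / (∑ f l * w l - 1)`, whose spectrum is a bundle of affine
spaces of dimension `n - 1` over `U`; then `A m k (Spec (Jou f)) = A (m - (n - 1)) k U`. -/
structure IsHigherChow (A : ℤ → ℤ → Sch ℤ → ModuleCat.{w} ℚ) : Prop extends IsChow A where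
  bundle : ∀ (B : Type) [CommRing B] [Algebra ℤ B] [Algebra.FiniteType ℤ B] (n : ℕ)
    (f : Fin n → B) (U : Sch ℤ) (j : U ⟶ aff ℤ B), IsOpenImmersion j.left →
    Set.range j.left = {x : PrimeSpectrum B | ∃ l, f l ∉ x.asIdeal} →
    ∀ m k : ℤ, Nonempty (A m k (aff ℤ (Jou f)) ≅ A (m + (1 - n)) k U)

section rank

variable {A : ℤ → Sch ℤ → ModuleCat.{w} ℚ} {Z X U : Sch ℤ}
  {m : LesMaps A (Equiv.subRight 1) Z X U}

lemma fin_closed (h : m.IsExact) (hX : FinRank A X) (hU : FinRank A U) : FinRank A Z := by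
  refine ⟨fun k => ?_, (hX.2.union (hU.2.image (Equiv.subRight (1 : ℤ)))).subset fun k hk => ?_⟩
  · obtain ⟨j, rfl⟩ := (Equiv.subRight (1 : ℤ)).surjective k
    exact serre_exact serre_finite (h.hf j) (hU.1 j) (hX.1 _)
  · obtain ⟨j, rfl⟩ := (Equiv.subRight (1 : ℤ)).surjective k
    by_contra h2
    rw [Set.mem_union, not_or] at h2
    refine hk (sub_mid (h.hf j) (not_not.mp fun h3 => h2.2 ⟨j, h3, rfl⟩) (not_not.mp h2.1))

lemma fin_iso2 {A A' : ℤ → Sch ℤ → ModuleCat.{w} ℚ} {X Y : Sch ℤ}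
    (e : ∀ k, Nonempty (A k X ≅ A' k Y)) (h : FinRank A X) : FinRank A' Y ∧ rk A' Y = rk A X := by
  refine ⟨⟨fun k => ?_, h.2.subset fun k hk hs => hk ?_⟩, ?_⟩
  · obtain ⟨e⟩ := e k
    have := h.1 k
    exact Module.Finite.equiv e.toLinearEquiv
  · obtain ⟨e⟩ := e k
    exact e.toLinearEquiv.symm.toEquiv.subsingleton
  · rw [rk, rk]
    refine finsum_congr fun k => ?_
    obtain ⟨e⟩ := e k
    rw [e.toLinearEquiv.finrank_eq]

end rank

section formula

variable {A : ℤ → ℤ → Sch ℤ → ModuleCat.{w} ℚ}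

/-- The order formula is compatible with shifts. -/
lemma formula_shift {X Y : Sch ℤ} (c : ℤ)
    (hz : ∃ τ : ℝ, ∀ s : ℂ, τ < s.re → zeta X.left s = zeta Y.left (s + (c : ℂ)))
    (hA : ∀ m k, Nonempty (A m k X ≅ A (m + c) k Y)) (h : Formula A X) : Formula A Y := by
  obtain ⟨F, hF, ⟨σ, hσ⟩, hm⟩ := h
  obtain ⟨τ, hτ⟩ := hz
  refine ⟨fun s => F (s + ((-c : ℤ) : ℂ)), mero_sub hF _, ⟨max σ τ + c, fun s hs => ?_⟩,
    fun m => ?_⟩
  · have h1 : max σ τ < (s + ((-c : ℤ) : ℂ)).re := by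
      rw [Complex.add_re, Complex.intCast_re]
      push_cast
      linarith
    beta_reduce
    rw [hσ _ (lt_of_le_of_lt (le_max_left _ _) h1), hτ _ (lt_of_le_of_lt (le_max_right _ _) h1)]
    congr 1
    push_cast
    ring
  · have e : ∀ k, Nonempty (A (m - c) k X ≅ A m k Y) := by
      intro k
      have := hA (m - c) k
      rwa [sub_add_cancel] at this
    obtain ⟨h1, h2⟩ := fin_iso2 e (hm (m - c)).1
    refine ⟨h1, ?_⟩
    change meromorphicOrderAt (F ∘ fun s => s + ((-c : ℤ) : ℂ)) (m : ℂ) = _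
    rw [meromorphicOrderAt_comp_add_const_eq_meromorphicOrderAt, h2]
    have h3 : (m : ℂ) + ((-c : ℤ) : ℂ) = ((m - c : ℤ) : ℂ) := by
      push_cast
      ring
    rw [h3]
    exact (hm (m - c)).2

lemma formula_closed (hA : IsChow A) {Z X U : Sch ℤ} (i : Z ⟶ X) (j : U ⟶ X) (hX : FT False X)
    (ht : IsTriple i j) (hX' : Formula A X) (hU : Formula A U) : Formula A Z := by
  obtain ⟨F, hF, ⟨σ, hσ⟩, hm⟩ := hX'
  obtain ⟨G, hG, ⟨σ', hσ'⟩, hm'⟩ := hU
  obtain ⟨τ, h⟩ := zeta_triple hX (ft_closed i hX ht.closed) (ft_open j hX ht.opened) ht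
  refine ⟨F * G⁻¹, hF.mul hG.inv, ⟨max (max σ σ') τ, fun s hs => ?_⟩, fun m => ?_⟩
  · have a1 : σ < s.re := lt_of_le_of_lt ((le_max_left _ _).trans (le_max_left _ _)) hs
    have a2 : σ' < s.re := lt_of_le_of_lt ((le_max_right _ _).trans (le_max_left _ _)) hs
    obtain ⟨h1, h2, h3⟩ := h s (lt_of_le_of_lt (le_max_right _ _) hs)
    rw [Pi.mul_apply, Pi.inv_apply, hσ s a1, hσ' s a2, h1]
    field_simp
  · obtain ⟨l, hl⟩ := hA.les i j hX ht m
    have h1 := fin_closed hl (hm m).1 (hm' m).1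
    refine ⟨h1, ?_⟩
    have h2 := rk_les hl h1 (hm m).1 (hm' m).1
    have h3 : meromorphicOrderAt G⁻¹ (m : ℂ) = ((rk (A m) U : ℤ) : WithTop ℤ) := by
      rw [meromorphicOrderAt_inv, (hm' m).2]
      change ((-(-rk (A m) U) : ℤ) : WithTop ℤ) = _
      rw [neg_neg]
    rw [meromorphicOrderAt_mul (hF _ trivial) (hG.inv _ trivial), (hm m).2, h3,
      ← WithTop.coe_add]
    congr 1
    rw [h2]
    ring

variable (hA : IsHigherChow A)

include hA

lemma formula_jou (B : Type) [CommRing B] [Algebra ℤ B] [Algebra.FiniteType ℤ B] (n : ℕ)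
    (f : Fin n → B) (U : Sch ℤ) (j : U ⟶ aff ℤ B) (hj : IsOpenImmersion j.left)
    (hr : Set.range j.left = {x : PrimeSpectrum B | ∃ l, f l ∉ x.asIdeal}) :
    Formula A (aff ℤ (Jou f)) ↔ Formula A U := by
  have hU : FT False U := ft_open j (ft_aff False) hj
  obtain ⟨τ, h1⟩ := zeta_jou f hU hj hr
  constructor
  · exact formula_shift (1 - n : ℤ) ⟨τ, h1⟩ (hA.bundle B n f U j hj hr)
  · refine formula_shift (-(1 - n : ℤ)) ⟨τ + (1 - n : ℤ), fun s hs => ?_⟩ fun m k => ?_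
    · have h2 := h1 (s + ((-(1 - n : ℤ) : ℤ) : ℂ)) (by
        rw [Complex.add_re, Complex.intCast_re]
        push_cast at hs ⊢
        linarith)
      rw [h2]
      congr 1
      push_cast
      ring
    · obtain ⟨e⟩ := hA.bundle B n f U j hj hr (m + -(1 - n : ℤ)) k
      rw [neg_add_cancel_right] at e
      exact ⟨e.symm⟩

/-- The closure properties of the schemes for which the order formula holds. -/
theorem bnd_formula (h0 : Formula A (aff ℤ ℤ)) : Bnd False (Formula A) where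
  iso := (clo_formula hA.toIsChow).iso
  total := (clo_formula hA.toIsChow).total
  opened := (clo_formula hA.toIsChow).opened
  closed := formula_closed hA.toIsChow
  torus := (clo_formula hA.toIsChow).torus
  jouanolou B _ _ _ m f U j hj hr h := (formula_jou hA B m f U j hj hr).mp h
  bundle B _ _ _ m f U j hj hr h := (formula_jou hA B m f U j hj hr).mpr h
  space n := by
    have h1 : IsOpenImmersion (𝟙 (aff ℤ ℤ) : aff ℤ ℤ ⟶ aff ℤ ℤ).left :=
      inferInstanceAs (IsOpenImmersion (𝟙 (aff ℤ ℤ).left))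
    have h2 : Set.range (𝟙 (aff ℤ ℤ) : aff ℤ ℤ ⟶ aff ℤ ℤ).left =
        {x : PrimeSpectrum ℤ | ∃ l, f1 ℤ n l ∉ x.asIdeal} := by
      have h1 : Set.range (𝟙 (aff ℤ ℤ) : aff ℤ ℤ ⟶ aff ℤ ℤ).left = Set.univ := Set.range_id
      have h2 : {x : PrimeSpectrum ℤ | ∃ l, f1 ℤ n l ∉ x.asIdeal} = Set.univ := by
        rw [Set.eq_univ_iff_forall]
        intro x
        exact ⟨0, fun h => x.isPrime.ne_top ((Ideal.eq_top_iff_one _).mpr h)⟩
      exact h1.trans h2.symm
    have h3 := (formula_jou hA ℤ (n + 1) (f1 ℤ n) (aff ℤ ℤ) (𝟙 _) h1 h2).mpr h0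
    exact clo_alg (clo_formula hA.toIsChow) ((jouOne ℤ n).restrictScalars ℤ) h3

end formula

end Pool.Agent.NH36.Zt
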